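import Pool.Agent.H458Z.Byk.Field3

set_option autoImplicit false

namespace Pool.Agent.Results.MP_b7d0e6_al.AFailsSqrt3

open NumberField Pool.Agent.H458Z.Steinberg

/-- There is a number field (namely `Q(sqrt 3)`) whose ring of integers is Euclidean and generated
by units, and for which the apartment map `Byk_2 → St_2` is not injective. -/
theorem result : ∃ (K : Type) (_ : Field K) (_ : NumberField K),
    IsEuclid (𝓞 K) ∧ GenByUnits (𝓞 K) ∧ ApartmentMapNotInjective (𝓞 K) K 2 :=
  ⟨K3, inferInstance, inferInstance, euclid, genByUnits,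
    (St K3 2).subtype.comp (aptMap K3 RingOfIntegers.coe_injective),
    fun x => (aptMap K3 RingOfIntegers.coe_injective x).2, aptMap_symb K3 RingOfIntegers.coe_injective,
    fun h => not_inj3 fun _ _ e => h (congrArg Subtype.val e)⟩

end Pool.Agent.Results.MP_b7d0e6_al.AFailsSqrt3
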